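import Pool.Agent.Helper20.IIC.Stmts

/-! # Module DEC: decay of the two point function -/

namespace IIC

open Filter Topology Set MeasureTheory
open scoped BigOperators

theorem dec_fin (d n : ℕ) : {x : Fin d → ℤ | nrm x < n}.Finite := by
  refine (Set.finite_Icc (fun _ : Fin d => -(n : ℤ)) (fun _ => (n : ℤ))).subset ?_
  intro x hx
  have h1 : ∀ i, (x i).natAbs ≤ nrm x := fun i =>
    Finset.le_sup (f := fun i => (x i).natAbs) (Finset.mem_univ i)
  constructor
  · intro i
    have := h1 i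
    have h2 : nrm x < n := hx
    change -(n : ℤ) ≤ x i
    omega
  · intro i
    have := h1 i
    have h2 : nrm x < n := hx
    change x i ≤ (n : ℤ)
    omega

theorem st_DEC (hLIM : ST_LIM) (hLATC : ST_LATC) (hCONT : ST_CONT) (hUPS : ST_UPS) :
    ST_DEC := by
  intro d hd β hβ hth
  rw [Metric.tendsto_nhds]
  intro ε hε
  -- choose a finite volume with small probability
  have hlt : (⨅ Λ : Finset (Ed d), PW β Λ (IN (0 : Fin d → ℤ))) < ε := by
    have : mW β (IN (0 : Fin d → ℤ)) = 0 := hth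
    unfold mW at this
    rw [this]
    exact hε
  obtain ⟨L, hL⟩ := exists_lt_of_ciInf_lt hlt
  obtain ⟨n, hn⟩ := (hLATC d hd).2.1 L ∅
  have hfin := dec_fin d n
  filter_upwards [hfin.compl_mem_cofinite] with x hx
  have hx' : n ≤ nrm x := not_lt.mp hx
  have hinf : {y : Fin d → ℤ | n ≤ nrm y}.Infinite := by
    have : Nonempty (Fin d) := ⟨⟨0, by omega⟩⟩
    have : Infinite (Fin d → ℤ) := inferInstance
    have h1 : {y : Fin d → ℤ | n ≤ nrm y} = {x : Fin d → ℤ | nrm x < n}ᶜ := by
      ext y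
      simp only [Set.mem_ofPred_eq, Set.mem_compl_iff, not_lt]
    rw [h1]
    exact hfin.infinite_compl
  obtain ⟨-, hC⟩ := hCONT d L
  obtain ⟨h1, h2, h3, -, h5⟩ := hC β hβ
  have hup := hUPS d
  have key : ∀ T ⊆ L, (exw L T ∈ CN 0 x ↔ exw L T ∈ CN 0 x ∩ IN 0) := by
    intro T hT
    constructor
    · intro h
      refine ⟨h, ?_⟩
      change {y | LConn (exw L T) 0 y}.Infinite
      refine hinf.mono fun y hy => ?_
      have h6 : exw L ∅ ∈ CN x y := hn x y hx' hy
      have h7 : exw L ∅ ≤ exw L T := by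
        intro e
        unfold exw ext
        by_cases he : e ∈ L
        · simp [he]
        · simp [he]
      have h8 : exw L T ∈ CN x y := (hup x y ∅).1 h7 h6
      exact Relation.ReflTransGen.trans h h8
    · exact fun h => h.1
  have h6 : PW β L (CN 0 x) ≤ PW β L (IN 0) := by
    rw [h5 _ _ key]
    exact h3 _ _ Set.inter_subset_right
  have h7 : S2 β x ≤ PW β L (CN 0 x) := ((hLIM d β hβ).1 _ (hup 0 x ∅).1).2.2.2 L
  have h8 : 0 ≤ S2 β x := by
    have h9 := ((hLIM d β hβ).1 _ (hup 0 x ∅).1).1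
    refine ge_of_tendsto' h9 fun Λ => ?_
    obtain ⟨-, hC'⟩ := hCONT d Λ
    obtain ⟨-, h2', h3', -, -⟩ := hC' β hβ
    rw [← h2']
    exact h3' _ _ (Set.empty_subset _)
  rw [Real.dist_eq, sub_zero, abs_of_nonneg h8]
  linarith

end IIC

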