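import Pool.Agent.Helper20.IIC.Stmts

/-! # Module KBC: two descriptions of the wired measure -/

namespace IIC

open Filter Topology Set MeasureTheory
open scoped BigOperators

theorem kbc_symm {V E : Type} {ends : E → Sym2 V} {T : Set E} {x y : V} (h : Step ends T x y) :
    Step ends T y x := by
  obtain ⟨e, he, h1⟩ := h
  exact ⟨e, he, by rw [h1, Sym2.eq_swap]⟩

theorem kbc_conn_symm {V E : Type} {ends : E → Sym2 V} {T : Set E} {x y : V}
    (h : Conn ends T x y) : Conn ends T y x := by
  unfold Conn at h ⊢
  induction h with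
  | refl => exact Relation.ReflTransGen.refl
  | tail _ hbc ih => exact (Relation.ReflTransGen.single (kbc_symm hbc)).trans ih

theorem kbc_quot {V E : Type} {ends : E → Sym2 V} {T : Set E} {x y : V} :
    Quot.mk (Step ends T) x = Quot.mk (Step ends T) y ↔ Conn ends T x y := by
  rw [Quot.eq]
  constructor
  · intro h
    induction h with
    | rel x y h => exact Relation.ReflTransGen.single h
    | refl x => exact Relation.ReflTransGen.refl
    | symm x y _ ih => exact kbc_conn_symm ih
    | trans x y z _ _ ih1 ih2 => exact Relation.ReflTransGen.trans ih1 ih2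
  · intro h
    unfold Conn at h
    induction h with
    | refl => exact Relation.EqvGen.refl _
    | tail _ hbc ih => exact ih.trans _ _ _ (Relation.EqvGen.rel _ _ hbc)

/-- Neighbours of a lattice point which are closer to `y`. -/
theorem kbc_nb {d : ℕ} (x y : Fin d → ℤ) (h : x ≠ y) : ∃ z, (lat d).Adj x z ∧
    ∑ i, (z i - y i).natAbs < ∑ i, (x i - y i).natAbs := by
  classical
  obtain ⟨i, hi⟩ := Function.ne_iff.mp h
  rcases lt_or_gt_of_ne hi with h1 | h1
  · refine ⟨Function.update x i (x i + 1), ?_, ?_⟩
    · change ∑ j, |x j - Function.update x i (x i + 1) j| = 1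
      rw [Finset.sum_eq_single i]
      · simp
      · intro j _ hj
        simp [Function.update_of_ne hj]
      · intro h; exact absurd (Finset.mem_univ i) h
    · refine Finset.sum_lt_sum (fun j _ => ?_) ⟨i, Finset.mem_univ i, ?_⟩
      · by_cases hj : j = i
        · subst hj; rw [Function.update_self]; omega
        · rw [Function.update_of_ne hj]
      · rw [Function.update_self]; omega
  · refine ⟨Function.update x i (x i - 1), ?_, ?_⟩
    · change ∑ j, |x j - Function.update x i (x i - 1) j| = 1
      rw [Finset.sum_eq_single i]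
      · simp
      · intro j _ hj
        simp [Function.update_of_ne hj]
      · intro h; exact absurd (Finset.mem_univ i) h
    · refine Finset.sum_lt_sum (fun j _ => ?_) ⟨i, Finset.mem_univ i, ?_⟩
      · by_cases hj : j = i
        · subst hj; rw [Function.update_self]; omega
        · rw [Function.update_of_ne hj]
      · rw [Function.update_self]; omega

/-- Every cluster meets `V`. -/
theorem kbc_meets {d : ℕ} (V : Finset (Fin d → ℤ)) (T : Finset (Ed d)) {y : Fin d → ℤ}
    (hy : y ∈ V) : ∀ (n : ℕ) (x : Fin d → ℤ), ∑ i, (x i - y i).natAbs = n →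
    ∃ z ∈ V, LConn (exw (inE V) T) x z := by
  classical
  intro n
  induction n using Nat.strong_induction_on with
  | _ n ih =>
    intro x hx
    by_cases hxV : x ∈ V
    · exact ⟨x, hxV, Relation.ReflTransGen.refl⟩
    · have hxy : x ≠ y := fun h => hxV (h ▸ hy)
      obtain ⟨z, hz, hlt⟩ := kbc_nb x y hxy
      obtain ⟨w, hw, hzw⟩ := ih _ (hx ▸ hlt) z rfl
      refine ⟨w, hw, Relation.ReflTransGen.head ?_ hzw⟩
      refine ⟨⟨s(x, z), hz⟩, ?_, rfl⟩
      have h1 : (⟨s(x, z), hz⟩ : Ed d) ∉ inE V := by
        unfold inE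
        rw [Finset.mem_subtype, Finset.mk_mem_sym2_iff]
        exact fun h => hxV h.1
      change exw (inE V) T _ = true
      unfold exw ext
      simp only [if_neg h1]

theorem kbc_card {d : ℕ} (V : Finset (Fin d → ℤ)) (hV : V.Nonempty) (T : Finset (Ed d)) :
    kbc (fun _ => true) V T = ncl le (op (exw (inE V) T)) := by
  obtain ⟨y, hy⟩ := hV
  unfold kbc ncl
  let f : Quot (Step le (op (exw (inE V) T))) → Set (Fin d → ℤ) :=
    fun q => {z | Quot.mk _ z = q}
  have hf : Function.Injective f := by
    intro q q' h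
    obtain ⟨x, rfl⟩ := Quot.exists_rep q
    have h1 : x ∈ f (Quot.mk _ x) := rfl
    rw [h] at h1
    exact h1
  rw [← Nat.card_range_of_injective hf, Nat.card_coe_set_eq]
  congr 1
  ext C
  constructor
  · rintro ⟨x, _, rfl⟩
    refine ⟨Quot.mk _ x, ?_⟩
    ext z
    change Quot.mk _ z = Quot.mk _ x ↔ LConn (exw (inE V) T) x z
    rw [eq_comm]
    exact kbc_quot
  · rintro ⟨q, rfl⟩
    obtain ⟨x, rfl⟩ := Quot.exists_rep q
    obtain ⟨z, hz, hxz⟩ := kbc_meets V T hy _ x rfl
    refine ⟨z, hz, ?_⟩
    ext w
    change Quot.mk _ w = Quot.mk _ x ↔ LConn (exw (inE V) T) z w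
    rw [kbc_quot.mpr hxz, eq_comm]
    exact kbc_quot

theorem st_KBC : ST_KBC := by
  intro d β V hV A
  unfold fkBC PW wW
  simp only [kbc_card V hV]
  rfl

end IIC

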