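import Pool.Agent.Helper20.IIC.Stmts

/-! # Module MEAS: measurability -/

namespace IIC

open Filter Topology Set MeasureTheory
open scoped BigOperators

theorem meas_cyl {d : ℕ} {A : Set (Cfg d)} (hA : IsCyl A) : MeasurableSet A := by
  classical
  obtain ⟨F, hF⟩ := hA
  let ρ : Cfg d → (F → Bool) := fun ω e => ω e.1
  have hρ : Measurable ρ := measurable_pi_iff.mpr fun e => measurable_pi_apply _
  have h1 : A = ρ ⁻¹' (ρ '' A) := by
    ext ω
    constructor
    · intro h
      exact ⟨ω, h, rfl⟩
    · rintro ⟨ω', h', he⟩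
      refine (hF ω' ω fun e heF => ?_).mp h'
      exact congrFun he ⟨e, heF⟩
  rw [h1]
  exact hρ (Set.toFinite _).measurableSet

/-- The union of the powers of a relation. -/
theorem meas_rtg {Ω V : Type} [MeasurableSpace Ω] [Countable V] (r : Ω → V → V → Prop)
    (h : ∀ x y, MeasurableSet {ω | r ω x y}) (x y : V) :
    MeasurableSet {ω | Relation.ReflTransGen (r ω) x y} := by
  let R : ℕ → V → Set Ω := fun n => Nat.rec (fun z => {_ω | x = z})
    (fun _ Rn z => ⋃ w, Rn w ∩ {ω | r ω w z}) n
  have hR0 : ∀ z, R 0 z = {_ω | x = z} := fun z => rfl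
  have hRs : ∀ n z, R (n + 1) z = ⋃ w, R n w ∩ {ω | r ω w z} := fun n z => rfl
  have hm : ∀ n z, MeasurableSet (R n z) := by
    intro n
    induction n with
    | zero =>
      intro z
      rw [hR0]
      exact MeasurableSet.const _
    | succ n ih =>
      intro z
      rw [hRs]
      exact MeasurableSet.iUnion fun w => (ih w).inter (h w z)
  have heq : {ω | Relation.ReflTransGen (r ω) x y} = ⋃ n, R n y := by
    ext ω
    simp only [Set.mem_ofPred_eq, Set.mem_iUnion]
    constructor
    · intro hxy
      induction hxy with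
      | refl => exact ⟨0, by rw [hR0]; rfl⟩
      | tail _ hbc ih =>
        obtain ⟨n, hn⟩ := ih
        refine ⟨n + 1, ?_⟩
        rw [hRs]
        exact Set.mem_iUnion.mpr ⟨_, hn, hbc⟩
    · rintro ⟨n, hn⟩
      induction n generalizing y with
      | zero =>
        rw [hR0] at hn
        have : x = y := hn
        rw [this]
      | succ n ih =>
        rw [hRs] at hn
        obtain ⟨w, hw, hwy⟩ := Set.mem_iUnion.mp hn
        exact (ih w hw).tail hwy
  rw [heq]
  exact MeasurableSet.iUnion fun n => hm n y

theorem meas_op {d : ℕ} (e : Ed d) : MeasurableSet {ω : Cfg d | ω e = true} := by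
  have h1 : Measurable fun ω : Cfg d => ω e := measurable_pi_apply e
  exact h1 (measurableSet_singleton true)

theorem meas_step {d : ℕ} (x y : Fin d → ℤ) : MeasurableSet {ω : Cfg d | Step le (op ω) x y} := by
  have h1 : {ω : Cfg d | Step le (op ω) x y} =
      ⋃ e : Ed d, {ω : Cfg d | ω e = true} ∩ {_ω | le e = s(x, y)} := by
    ext ω
    simp only [Set.mem_ofPred_eq, Set.mem_iUnion, Set.mem_inter_iff, Step, op]
  rw [h1]
  exact MeasurableSet.iUnion fun e => (meas_op e).inter (MeasurableSet.const _)

theorem meas_CN {d : ℕ} (x y : Fin d → ℤ) : MeasurableSet (CN x y) :=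
  meas_rtg (fun ω : Cfg d => Step le (op ω)) meas_step x y

theorem meas_IN {d : ℕ} (x : Fin d → ℤ) : MeasurableSet (IN x) := by
  have h1 : IN x = ⋂ s : Finset (Fin d → ℤ), ⋃ y : Fin d → ℤ, {_ω : Cfg d | y ∉ s} ∩ CN x y := by
    ext ω
    simp only [IN, Infin, Set.mem_ofPred_eq, Set.mem_iInter, Set.mem_iUnion, Set.mem_inter_iff, CN]
    constructor
    · intro h s
      obtain ⟨y, hy, hys⟩ := h.exists_notMem_finset s
      exact ⟨y, hys, hy⟩
    · intro h hfin
      obtain ⟨y, hy, hy2⟩ := h hfin.toFinset
      exact hy (hfin.mem_toFinset.mpr hy2)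
  rw [h1]
  exact MeasurableSet.iInter fun s => MeasurableSet.iUnion fun y =>
    (MeasurableSet.const _).inter (meas_CN x y)

theorem meas_clo {d : ℕ} (v : Fin d → ℤ) : Measurable (clo v : Cfg d → Cfg d) := by
  refine measurable_pi_iff.mpr fun e => ?_
  by_cases h : v ∈ le e
  · have : (fun ω : Cfg d => clo v ω e) = fun _ => false := by
      funext ω
      simp only [clo, if_pos h]
    rw [this]
    exact measurable_const
  · have : (fun ω : Cfg d => clo v ω e) = fun ω => ω e := by
      funext ω
      simp only [clo, if_neg h]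
    rw [this]
    exact measurable_pi_apply e

theorem st_MEAS : ST_MEAS := by
  intro d
  refine ⟨fun A => meas_cyl, meas_CN, meas_IN, ?_, meas_clo, ?_⟩
  · intro v
    have h1 : {ω : Cfg d | Tri v ω} = ⋃ a : Fin 3 → (Fin d → ℤ),
        ((⋂ i, {ω | Step le (op ω) v (a i)}) ∩ ((⋂ i, clo v ⁻¹' IN (a i)) ∩
          ⋂ i, ⋂ j, {_ω | i = j} ∪ (clo v ⁻¹' CN (a i) (a j))ᶜ)) := by
      ext ω
      simp only [Tri, Set.mem_ofPred_eq, Set.mem_iUnion, Set.mem_inter_iff, Set.mem_iInter,
        Set.mem_preimage, Set.mem_union, Set.mem_compl_iff, Step, op, IN, CN]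
      refine exists_congr fun a => and_congr_right fun _ => and_congr_right fun _ => ?_
      refine forall_congr' fun i => forall_congr' fun j => ?_
      exact imp_iff_not_or.trans (or_congr_left not_not)
    rw [h1]
    refine MeasurableSet.iUnion fun a => ?_
    refine (MeasurableSet.iInter fun i => meas_step _ _).inter
      ((MeasurableSet.iInter fun i => meas_clo v (meas_IN _)).inter
        (MeasurableSet.iInter fun i => MeasurableSet.iInter fun j => ?_))
    exact (MeasurableSet.const _).union (meas_clo v (meas_CN _ _)).compl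
  · intro g
    exact measurable_pi_iff.mpr fun e => measurable_pi_apply _

end IIC

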